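import Pool.Agent.TH198.AT.Conv

/-!
# The de Almeida–Thouless line: assembly of the equivalence
-/

set_option autoImplicit false

open MeasureTheory ProbabilityTheory Set Filter Topology

namespace Pool.TH198.AT

/-- `ζ₀` is a Parisi measure (given by its distribution function): it is a distribution function
on `[0,1]` whose Parisi equation has a solution, and it minimises the Parisi functional over all
distribution functions -/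
def IsParisiMeasure (β h : ℝ) (ζ₀ : ℝ → ℝ) : Prop :=
  IsCdf ζ₀ ∧ ∃ f₀ : ℝ → ℝ → ℝ, IsParisi β ζ₀ f₀ ∧
    ∀ (ζ : ℝ → ℝ) (f : ℝ → ℝ → ℝ), IsCdf ζ → IsParisi β ζ f → PF β h ζ₀ f₀ ≤ PF β h ζ f

/-- the equivalence -/
def St_IFF : Prop :=
  ∀ β h : ℝ, 0 < β →
    (∀ ζ : ℝ → ℝ, IsCdf ζ → ∀ f g : ℝ → ℝ → ℝ, IsParisi β ζ f → IsParisi β ζ g →
      ∀ t ∈ Icc (0 : ℝ) 1, ∀ x, f t x = g t x) ∧
    ∃ q : ℝ, IsGreatest {p : ℝ | p ∈ Icc (0 : ℝ) 1 ∧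
        p = ∫ z, Real.tanh (β * z * √(2 * p) + h) ^ 2 ∂(gaussianReal 0 1)} q ∧
      ((∃ p ∈ Icc (0 : ℝ) 1, IsParisiMeasure β h (one p)) ↔
        β ^ 2 * ∫ z, (Real.cosh (β * z * √(2 * q) + h))⁻¹ ^ 4 ∂(gaussianReal 0 1) ≤ 1 / 2) ∧
      (β ^ 2 * ∫ z, (Real.cosh (β * z * √(2 * q) + h))⁻¹ ^ 4 ∂(gaussianReal 0 1) ≤ 1 / 2 →
        IsParisiMeasure β h (one q) ∧
          ∀ ζ : ℝ → ℝ, IsParisiMeasure β h ζ → ∀ t ∈ Icc (0 : ℝ) 1, ζ t = one q t)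

theorem t_IFF (hFU : St_FULL) (hF0 : St_F0) (hC : St_CONV) (hU : St_UNIQ) (hG : St_GREAT) :
    St_IFF := by
  intro β h hβ
  refine ⟨fun ζ hζ f g hf hg t ht x => hU β ζ f g hβ hζ hf hg t ht x, ?_⟩
  obtain ⟨q, hq⟩ := hG β h hβ
  have hq' : q ∈ Icc (0 : ℝ) 1 ∧
      q = E1 (fun z => Real.tanh (β * z * √(2 * q) + h) ^ 2) := hq.1
  have key : β ^ 2 * E1 (fun z => sech (β * z * √(2 * q) + h) ^ 4) ≤ 1 / 2 →
      IsParisiMeasure β h (one q) ∧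
        ∀ ζ : ℝ → ℝ, IsParisiMeasure β h ζ → ∀ t ∈ Icc (0 : ℝ) 1, ζ t = one q t := by
    intro hD
    obtain ⟨h1, h2, h3⟩ := hFU β h q hβ ⟨hq'.1.1, hq'.2, hD⟩
    refine ⟨⟨h1, f0 β q, h2, fun ζ f hζ hf => (h3 ζ f hζ hf).1⟩, ?_⟩
    rintro ζ ⟨hζ, f, hf, hmin⟩ t ht
    exact (h3 ζ f hζ hf).2 (le_antisymm (hmin _ _ h1 h2) (h3 ζ f hζ hf).1) t ht
  refine ⟨q, hq, ⟨?_, ?_⟩, ?_⟩
  · rintro ⟨p, hp, hone, f, hf, hmin⟩
    have hcdf := hF0 β p hβ hp.1 hp.2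
    have hval : PF β h (one p) f = PF β h (one p) (f0 β p) := by
      unfold PF
      rw [hU β (one p) f (f0 β p) hβ hone hf hcdf 0 ⟨le_rfl, zero_le_one⟩ h]
    have hM : MinAt β h p := ⟨hp, fun ζ g hζ hg => hval ▸ hmin ζ g hζ hg⟩
    exact (hC β h q p hβ hM hq).1
  · intro hD
    exact ⟨q, hq'.1, (key hD).1⟩
  · exact key

end Pool.TH198.AT
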