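import Mathlib

/-!
# The de Almeida–Thouless line of the SK model: definitions and statements of the pieces

Every `St_XXX` is a closed `Prop`; a piece is `theorem t_XXX : St_XXX` (or with hypotheses
`(h : St_YYY)`), in its own file `Pool/Agent/<yours>/...`.
-/

set_option autoImplicit false

open MeasureTheory ProbabilityTheory Set

namespace Pool.TH198.AT

/-- expectation over a standard normal variable -/
noncomputable def E1 (F : ℝ → ℝ) : ℝ := ∫ z, F z ∂(gaussianReal 0 1)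

noncomputable def sech (x : ℝ) : ℝ := (Real.cosh x)⁻¹

/-- the function `6 sech^5 - 4 sech^3` -/
noncomputable def kk (x : ℝ) : ℝ := 6 * sech x ^ 5 - 4 * sech x ^ 3

/-- `V_k(v) = e^{-v/2} E[sech(X) sech^k(X + √v y)]`, `X = h + √s z` -/
noncomputable def V (k : ℕ) (s h v : ℝ) : ℝ :=
  Real.exp (-v / 2) *
    E1 (fun z => sech (h + √s * z) * E1 (fun y => sech (h + √s * z + √v * y) ^ k))

/-- `f` is `C²`, `f1 = f'`, `f2 = f''`, with bounded derivatives -/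
def C2b (f f1 f2 : ℝ → ℝ) : Prop :=
  (∀ x, HasDerivAt f (f1 x) x) ∧ (∀ x, HasDerivAt f1 (f2 x) x) ∧ Continuous f2 ∧
    ∃ C : ℝ, ∀ x, |f1 x| ≤ C ∧ |f2 x| ≤ C

/-! ### Gaussian tools -/

/-- Stein's lemma with exponential growth -/
def St_STEIN : Prop :=
  ∀ (g g1 : ℝ → ℝ) (C K : ℝ), (∀ x, HasDerivAt g (g1 x) x) → Continuous g1 →
    (∀ x, |g x| ≤ C * Real.exp (K * |x|)) → (∀ x, |g1 x| ≤ C * Real.exp (K * |x|)) →
    E1 (fun z => z * g z) = E1 g1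

/-- derivative of the heat extension in `v`, and continuity at `v = 0` -/
def St_HEAT : Prop :=
  ∀ (f f1 f2 : ℝ → ℝ), C2b f f1 f2 →
    (∀ x v : ℝ, 0 < v →
      HasDerivAt (fun v => E1 (fun y => f (x + √v * y))) (E1 (fun y => f2 (x + √v * y)) / 2) v) ∧
    Continuous (fun p : ℝ × ℝ => E1 (fun y => f (p.1 + √p.2 * y)))

/-- derivative of the heat extension in `x` -/
def St_HEATX : Prop :=
  ∀ (f f1 : ℝ → ℝ) (C : ℝ), (∀ x, HasDerivAt f (f1 x) x) → Continuous f1 → (∀ x, |f1 x| ≤ C) →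
    ∀ σ x : ℝ, HasDerivAt (fun x => E1 (fun y => f (x + σ * y))) (E1 (fun y => f1 (x + σ * y))) x

/-- semigroup property -/
def St_SEMI : Prop :=
  ∀ (f : ℝ → ℝ) (C : ℝ), Continuous f → (∀ x, |f x| ≤ C * (1 + |x|)) →
    ∀ x u w : ℝ, 0 ≤ u → 0 ≤ w →
      E1 (fun z => E1 (fun y => f (x + √u * z + √w * y))) = E1 (fun y => f (x + √(u + w) * y))

/-- Cameron–Martin for even functions -/
def St_CM : Prop :=
  ∀ (G : ℝ → ℝ) (C : ℝ), Continuous G → (∀ x, G (-x) = G x) → (∀ x, |G x| ≤ C) →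
    ∀ s h : ℝ, 0 < s →
      E1 (fun z => G (h + √s * z)) =
        Real.exp (-h ^ 2 / (2 * s)) * E1 (fun z => Real.cosh (h / s * (√s * z)) * G (√s * z))

/-- Gaussian Poincaré inequality for `tanh` -/
def St_POIN : Prop :=
  ∀ x σ : ℝ, 0 ≤ σ →
    E1 (fun y => Real.tanh (x + σ * y) ^ 2) - (E1 (fun y => Real.tanh (x + σ * y))) ^ 2 ≤
      σ ^ 2 * E1 (fun y => sech (x + σ * y) ^ 4)

/-! ### The analytic core -/

/-- derivatives of `V_1` and `V_3`, continuity on `[0,∞)` -/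
def St_VD : Prop :=
  ∀ s h : ℝ, 0 ≤ s →
    (∀ v : ℝ, 0 < v → HasDerivAt (V 1 s h) (-V 3 s h v) v) ∧
    (∀ v : ℝ, 0 < v → HasDerivAt (V 3 s h)
      (-(Real.exp (-v / 2) *
        E1 (fun z => sech (h + √s * z) * E1 (fun y => kk (h + √s * z + √v * y))))) v) ∧
    ContinuousOn (V 1 s h) (Ici 0) ∧ ContinuousOn (V 3 s h) (Ici 0)

/-- `x ↦ E sech^3(x + √v y)` is nonincreasing for `x ≥ 0` (derivative form) -/
def St_W : Prop :=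
  ∀ v x : ℝ, 0 ≤ v → 0 ≤ x →
    E1 (fun y => -(3 * sech (x + √v * y) ^ 3 * Real.tanh (x + √v * y))) ≤ 0

/-- elementary inequality -/
def St_TANH : Prop :=
  ∀ s l x : ℝ, 0 < s → 0 ≤ l → l ^ 2 ≤ 2 + 1 / s → 0 ≤ x →
    l * Real.tanh (l * x) ≤ 2 * Real.tanh x + x / s

/-- THE CLAIM (Case I) -/
def St_CLAIM : Prop :=
  ∀ s h v : ℝ, 0 < s → 0 ≤ h → h ^ 2 ≤ 2 * s ^ 2 + s → 0 < v →
    0 ≤ E1 (fun z => sech (h + √s * z) * E1 (fun y => kk (h + √s * z + √v * y)))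

/-- Case II -/
def St_CASE2 : Prop :=
  ∀ s h : ℝ, 0 < s → 0 ≤ h → 2 * s ^ 2 + s ≤ h ^ 2 →
    s * E1 (fun z => sech (h + √s * z) ^ 2) ≤ E1 (fun z => Real.tanh (h + √s * z) ^ 2)

/-- `φ(t) = E (∂_x f(t,X_t))²` for the one-point measure at `q` -/
noncomputable def phi (β h q t : ℝ) : ℝ :=
  if t < q then
    E1 (fun z => (E1 (fun y =>
      Real.tanh (h + √(2 * β ^ 2 * t) * z + √(2 * β ^ 2 * (q - t)) * y))) ^ 2)
  else 1 - V 1 (2 * β ^ 2 * q) h (2 * β ^ 2 * (t - q))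

/-- the de Almeida–Thouless condition at a solution `q` of the replica symmetric equation -/
def DAT (β h q : ℝ) : Prop :=
  0 ≤ q ∧ q = E1 (fun z => Real.tanh (β * z * √(2 * q) + h) ^ 2) ∧
    β ^ 2 * E1 (fun z => sech (β * z * √(2 * q) + h) ^ 4) ≤ 1 / 2

/-- first order optimality of the one-point measure at `q` -/
def St_CORE : Prop :=
  ∀ β h q : ℝ, 0 < β → 0 ≤ h → DAT β h q →
    (∀ t : ℝ, 0 ≤ t → t < q → t ≤ phi β h q t) ∧ (∀ t : ℝ, q ≤ t → t ≤ 1 → phi β h q t ≤ t)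

/-! ### The Parisi functional -/

/-- a distribution function on `[0,1]` -/
def IsCdf (ζ : ℝ → ℝ) : Prop :=
  MonotoneOn ζ (Icc 0 1) ∧ (∀ t ∈ Icc (0 : ℝ) 1, 0 ≤ ζ t ∧ ζ t ≤ 1) ∧ ζ 1 = 1 ∧
    ∀ t ∈ Ico (0 : ℝ) 1, ContinuousWithinAt ζ (Ici t) t

/-- `f` solves the Parisi equation `∂_t f = -β² (f_xx + ζ(t) f_x²)`, `f(1,x) = log cosh x`
(integrated in time), with bounded continuous `f_x`, `f_xx` -/
def IsParisi (β : ℝ) (ζ : ℝ → ℝ) (f : ℝ → ℝ → ℝ) : Prop :=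
  ∃ fx fxx : ℝ → ℝ → ℝ,
    (∀ t ∈ Icc (0 : ℝ) 1, ∀ x, HasDerivAt (f t) (fx t x) x ∧ HasDerivAt (fx t) (fxx t x) x) ∧
    ContinuousOn (fun p : ℝ × ℝ => fx p.1 p.2) (Icc 0 1 ×ˢ univ) ∧
    ContinuousOn (fun p : ℝ × ℝ => fxx p.1 p.2) (Icc 0 1 ×ˢ univ) ∧
    (∃ C : ℝ, ∀ t ∈ Icc (0 : ℝ) 1, ∀ x, |fx t x| ≤ C ∧ |fxx t x| ≤ C) ∧
    ∀ t ∈ Icc (0 : ℝ) 1, ∀ x, f t x =
      Real.log (Real.cosh x) + ∫ r in t..1, β ^ 2 * (fxx r x + ζ r * fx r x ^ 2)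

/-- value of the Parisi functional at `ζ`, `f` being the solution for `ζ` -/
noncomputable def PF (β h : ℝ) (ζ : ℝ → ℝ) (f : ℝ → ℝ → ℝ) : ℝ :=
  Real.log 2 + f 0 h - β ^ 2 * ∫ t in (0 : ℝ)..1, ζ t * t

/-- the one-point distribution function at `q` -/
noncomputable def one (q : ℝ) (t : ℝ) : ℝ := if q ≤ t then 1 else 0

/-- the solution for the one-point measure -/
noncomputable def f0 (β q t x : ℝ) : ℝ :=
  if q ≤ t then Real.log (Real.cosh x) + β ^ 2 * (1 - t)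
  else E1 (fun y => Real.log (Real.cosh (x + √(2 * β ^ 2 * (q - t)) * y))) + β ^ 2 * (1 - q)

/-- the explicit solution is a solution -/
def St_F0 : Prop :=
  ∀ β q : ℝ, 0 < β → 0 ≤ q → q ≤ 1 → IsParisi β (one q) (f0 β q)

/-- maximum principle for the degenerate operator
`∂_t + (a/2)(∂_x+∂_y)² + c1 ∂_x + c2 ∂_y` with right derivatives in time -/
def St_MAX : Prop :=
  ∀ (a T0 T1 C : ℝ) (D Dt D1 D2 Dx Dy c1 c2 : ℝ → ℝ → ℝ → ℝ), 0 < a → T0 ≤ T1 →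
    ContinuousOn (fun p : ℝ × ℝ × ℝ => D p.1 p.2.1 p.2.2) (Icc T0 T1 ×ˢ univ) →
    (∀ t ∈ Ico T0 T1, ∀ x y : ℝ,
      HasDerivWithinAt (fun τ => D τ x y) (Dt t x y) (Ici t) t ∧
      HasDerivAt (fun u => D t (x + u) (y + u)) (D1 t x y) 0 ∧
      HasDerivAt (fun u => D1 t (x + u) (y + u)) (D2 t x y) 0 ∧
      HasDerivAt (fun u => D t u y) (Dx t x y) x ∧ HasDerivAt (fun u => D t x u) (Dy t x y) y ∧
      |c1 t x y| ≤ C ∧ |c2 t x y| ≤ C ∧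
      Dt t x y + a / 2 * D2 t x y + c1 t x y * Dx t x y + c2 t x y * Dy t x y ≤ 0) →
    (∀ x y : ℝ, 0 ≤ D T1 x y) →
    (∀ t ∈ Icc T0 T1, ∀ x y : ℝ, -(C * (1 + |x| + |y|)) ≤ D t x y) →
    ∀ t ∈ Icc T0 T1, ∀ x y : ℝ, 0 ≤ D t x y

/-- Leibniz rule (right derivative) for `τ ↦ ∫_τ^T ρ(r) k(r, a (r-τ)) dr` -/
def St_LEIB : Prop :=
  ∀ (a t T C : ℝ) (ρ : ℝ → ℝ) (k kw : ℝ → ℝ → ℝ), 0 < a → t < T → Measurable ρ →
    (∀ r ∈ Icc t T, |ρ r| ≤ C) → ContinuousWithinAt ρ (Ici t) t →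
    (∀ r ∈ Icc t T, ∀ w : ℝ, 0 < w → HasDerivAt (k r) (kw r w) w) →
    ContinuousOn (fun p : ℝ × ℝ => k p.1 p.2) (Icc t T ×ˢ Ici 0) →
    ContinuousOn (fun p : ℝ × ℝ => kw p.1 p.2) (Icc t T ×ˢ Ici 0) →
    HasDerivWithinAt (fun τ => ∫ r in τ..T, ρ r * k r (a * (r - τ)))
      (-(ρ t * k t 0) - a * ∫ r in t..T, ρ r * kw r (a * (r - t))) (Ici t) t

/-- `K(w,x) = E_tilt tanh²`, the conditional expectation of `tanh² (X_{t+w/a})` given `X_t = x` -/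
noncomputable def KK (w x : ℝ) : ℝ :=
  1 - Real.exp (-w / 2) * sech x * E1 (fun y => sech (x + √w * y))

/-- derivatives of `KK` (Kolmogorov backward equation) -/
def St_KD : Prop :=
  ∃ (Kx Kxx : ℝ → ℝ → ℝ) (C : ℝ),
    (∀ w x : ℝ, 0 ≤ w → HasDerivAt (KK w) (Kx w x) x ∧ HasDerivAt (Kx w) (Kxx w x) x) ∧
    (∀ w x : ℝ, 0 < w →
      HasDerivAt (fun w => KK w x) (Kxx w x / 2 + Real.tanh x * Kx w x) w) ∧
    ContinuousOn (fun p : ℝ × ℝ => KK p.1 p.2) (Ici 0 ×ˢ univ) ∧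
    ContinuousOn (fun p : ℝ × ℝ => Kx p.1 p.2) (Ici 0 ×ˢ univ) ∧
    ContinuousOn (fun p : ℝ × ℝ => Kxx p.1 p.2) (Ici 0 ×ˢ univ) ∧
    (∀ w x : ℝ, 0 ≤ w → |KK w x| ≤ C ∧ |Kx w x| ≤ C ∧ |Kxx w x| ≤ C) ∧
    (∀ x : ℝ, KK 0 x = Real.tanh x ^ 2)

/-- phase 1: lower bound on `[q,1]` -/
def St_PH1 : Prop :=
  ∀ (β q : ℝ) (ζ : ℝ → ℝ) (f : ℝ → ℝ → ℝ), 0 < β → 0 ≤ q → q ≤ 1 → IsCdf ζ → IsParisi β ζ f →
    ∀ x y : ℝ,
      Real.log (Real.cosh x) + β ^ 2 * (1 - q) +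
        β ^ 2 * (∫ r in q..1, (ζ r - 1) * KK (2 * β ^ 2 * (r - q)) x) +
        (y - x) * Real.tanh x ≤ f q y

/-- phase 2: from `q` down to `0` -/
def St_PH2 : Prop :=
  ∀ (β q : ℝ) (ζ : ℝ → ℝ) (f : ℝ → ℝ → ℝ) (G G1 G2 : ℝ → ℝ), 0 < β → 0 ≤ q → q ≤ 1 →
    IsCdf ζ → IsParisi β ζ f → C2b G G1 G2 →
    (∀ x y : ℝ, G x + (y - x) * Real.tanh x ≤ f q y) →
    ∀ h : ℝ,
      E1 (fun y => G (h + √(2 * β ^ 2 * q) * y)) +
        β ^ 2 * (∫ r in (0 : ℝ)..q, ζ r * E1 (fun z => (E1 (fun y =>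
          Real.tanh (h + √(2 * β ^ 2 * r) * z + √(2 * β ^ 2 * (q - r)) * y))) ^ 2)) ≤ f 0 h

/-- the function of phase 1 is `C²` with bounded derivatives -/
def St_G : Prop :=
  ∀ (β q : ℝ) (ζ : ℝ → ℝ), 0 < β → 0 ≤ q → q ≤ 1 → IsCdf ζ →
    ∃ G1 G2 : ℝ → ℝ, C2b (fun x => Real.log (Real.cosh x) + β ^ 2 * (1 - q) +
        β ^ 2 * (∫ r in q..1, (ζ r - 1) * KK (2 * β ^ 2 * (r - q)) x)) G1 G2

/-- THE THEOREM: in the de Almeida–Thouless region the one-point measure at `q` minimises the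
Parisi functional. -/
def St_MAIN : Prop :=
  ∀ β h q : ℝ, 0 < β → DAT β h q →
    IsCdf (one q) ∧ IsParisi β (one q) (f0 β q) ∧
    ∀ (ζ : ℝ → ℝ) (f : ℝ → ℝ → ℝ), IsCdf ζ → IsParisi β ζ f →
      PF β h (one q) (f0 β q) ≤ PF β h ζ f

end Pool.TH198.AT
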