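import Pool.Agent.TH198.AT.Stmts2

/-!
# The de Almeida–Thouless line: converse direction, uniqueness of solutions, literal equivalence
-/

set_option autoImplicit false

open MeasureTheory ProbabilityTheory Set Filter Topology

namespace Pool.TH198.AT

/-- `g` is `C²`, `g1 = g'`, `g2 = g''`, of at most exponential growth -/
def ExpC2 (g g1 g2 : ℝ → ℝ) : Prop :=
  (∀ x, HasDerivAt g (g1 x) x) ∧ (∀ x, HasDerivAt g1 (g2 x) x) ∧ Continuous g2 ∧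
    ∃ C K : ℝ, ∀ x, |g x| ≤ C * Real.exp (K * |x|) ∧ |g1 x| ≤ C * Real.exp (K * |x|) ∧
      |g2 x| ≤ C * Real.exp (K * |x|)

/-- heat extension of functions of exponential growth -/
def St_HEATE : Prop :=
  ∀ g g1 g2 : ℝ → ℝ, ExpC2 g g1 g2 →
    (∀ x σ : ℝ, HasDerivAt (fun x => E1 (fun y => g (x + σ * y))) (E1 (fun y => g1 (x + σ * y))) x) ∧
    (∀ x σ : ℝ, HasDerivAt (fun x => E1 (fun y => g1 (x + σ * y))) (E1 (fun y => g2 (x + σ * y))) x) ∧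
    (∀ x v : ℝ, 0 < v →
      HasDerivAt (fun v => E1 (fun y => g (x + √v * y))) (E1 (fun y => g2 (x + √v * y)) / 2) v) ∧
    Continuous (fun p : ℝ × ℝ => E1 (fun y => g (p.1 + √p.2 * y))) ∧
    Continuous (fun p : ℝ × ℝ => E1 (fun y => g1 (p.1 + √p.2 * y))) ∧
    Continuous (fun p : ℝ × ℝ => E1 (fun y => g2 (p.1 + √p.2 * y)))

/-- the Cole–Hopf function `(1/m) log E cosh^m (x + √w y)` -/
noncomputable def UH (m w x : ℝ) : ℝ :=
  (1 / m) * Real.log (E1 (fun y => Real.cosh (x + √w * y) ^ m))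

/-- the Cole–Hopf function solves `U_w = (U_xx + m U_x²)/2` -/
def St_CH : Prop :=
  ∀ m : ℝ, 0 < m → m ≤ 1 → ∃ Ux Uxx : ℝ → ℝ → ℝ,
    (∀ w x : ℝ, 0 ≤ w → HasDerivAt (UH m w) (Ux w x) x ∧ HasDerivAt (Ux w) (Uxx w x) x) ∧
    (∀ w x : ℝ, 0 < w →
      HasDerivAt (fun w => UH m w x) ((Uxx w x + m * Ux w x ^ 2) / 2) w) ∧
    ContinuousOn (fun p : ℝ × ℝ => UH m p.1 p.2) (Ici 0 ×ˢ univ) ∧
    ContinuousOn (fun p : ℝ × ℝ => Ux p.1 p.2) (Ici 0 ×ˢ univ) ∧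
    ContinuousOn (fun p : ℝ × ℝ => Uxx p.1 p.2) (Ici 0 ×ˢ univ) ∧
    (∀ w x : ℝ, 0 ≤ w → |Ux w x| ≤ 1 ∧ |Uxx w x| ≤ 3) ∧
    (∀ x : ℝ, UH m 0 x = Real.log (Real.cosh x) ∧ Ux 0 x = Real.tanh x ∧ Uxx 0 x = sech x ^ 2)

/-- the two-step distribution function: `0` on `[0,q)`, `m` on `[q,t)`, `1` on `[t,1]` -/
noncomputable def two (q m t : ℝ) (s : ℝ) : ℝ := if s < q then 0 else if s < t then m else 1

/-- its solution of the Parisi equation -/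
noncomputable def f2 (β q m t s x : ℝ) : ℝ :=
  if t ≤ s then Real.log (Real.cosh x) + β ^ 2 * (1 - s)
  else if q ≤ s then UH m (2 * β ^ 2 * (t - s)) x + β ^ 2 * (1 - t)
  else E1 (fun y => UH m (2 * β ^ 2 * (t - q)) (x + √(2 * β ^ 2 * (q - s)) * y)) + β ^ 2 * (1 - t)

/-- the explicit two-step solution is a solution -/
def St_PAR2 : Prop :=
  ∀ β q m t : ℝ, 0 < β → 0 ≤ q → q < t → t ≤ 1 → 0 < m → m ≤ 1 →
    IsCdf (two q m t) ∧ IsParisi β (two q m t) (f2 β q m t)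

/-- values of the Parisi functional -/
def St_VAL : Prop :=
  (∀ β h q : ℝ, 0 < β → 0 ≤ q → q ≤ 1 →
    PF β h (one q) (f0 β q) = Real.log 2 +
      E1 (fun z => Real.log (Real.cosh (h + √(2 * β ^ 2 * q) * z))) + β ^ 2 * (1 - q)
        - β ^ 2 * (1 - q ^ 2) / 2) ∧
  ∀ β h q m t : ℝ, 0 < β → 0 ≤ q → q < t → t ≤ 1 → 0 < m → m ≤ 1 →
    PF β h (two q m t) (f2 β q m t) = Real.log 2 +
      E1 (fun z => UH m (2 * β ^ 2 * (t - q)) (h + √(2 * β ^ 2 * q) * z)) + β ^ 2 * (1 - t)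
        - β ^ 2 * (m * (t ^ 2 - q ^ 2) + (1 - t ^ 2)) / 2

/-- outside the de Almeida–Thouless region the overlap function exceeds the identity right of `q` -/
def St_OVER : Prop :=
  ∀ β h q : ℝ, 0 < β → 0 ≤ q →
    q = E1 (fun z => Real.tanh (h + √(2 * β ^ 2 * q) * z) ^ 2) →
    1 < 2 * β ^ 2 * E1 (fun z => sech (h + √(2 * β ^ 2 * q) * z) ^ 4) →
    ∃ δ : ℝ, 0 < δ ∧ ∀ v : ℝ, 0 < v → v < δ →
      q + v / (2 * β ^ 2) < 1 - V 1 (2 * β ^ 2 * q) h v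

/-- `L'(m) = E[c^m log c] / E[c^m]`, `c = cosh (x + √v y)` -/
noncomputable def LP (m v x : ℝ) : ℝ :=
  E1 (fun y => Real.cosh (x + √v * y) ^ m * Real.log (Real.cosh (x + √v * y))) /
    E1 (fun y => Real.cosh (x + √v * y) ^ m)

/-- the entropy identity at `m = 1` -/
def St_LAM : Prop :=
  ∀ v x : ℝ, 0 ≤ v →
    LP 1 v x - (Real.log (Real.cosh x) + v / 2) = (∫ w in (0 : ℝ)..v, KK w x) / 2 ∧
    UH 1 v x = Real.log (Real.cosh x) + v / 2

/-- tangent inequality (Jensen): `m U_m + (1-m) L'(m) ≤ U_1` -/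
def St_JEN : Prop :=
  ∀ m v x : ℝ, 0 < m → m ≤ 1 → 0 ≤ v → m * UH m v x + (1 - m) * LP m v x ≤ UH 1 v x

/-- continuity of the averaged `L'(m)` as `m → 1`, and integrability -/
def St_LIM : Prop :=
  ∀ s h v : ℝ, 0 ≤ s → 0 ≤ v →
    (∀ m : ℝ, 0 < m → m ≤ 1 →
      Integrable (fun z => LP m v (h + √s * z)) (gaussianReal 0 1) ∧
      Integrable (fun z => UH m v (h + √s * z)) (gaussianReal 0 1)) ∧
    Tendsto (fun m => E1 (fun z => LP m v (h + √s * z))) (𝓝[<] 1)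
      (𝓝 (E1 (fun z => LP 1 v (h + √s * z))))

/-- outside the de Almeida–Thouless region a two-step measure does better -/
def St_LESS : Prop :=
  ∀ β h q : ℝ, 0 < β → 0 ≤ q → q < 1 →
    q = E1 (fun z => Real.tanh (h + √(2 * β ^ 2 * q) * z) ^ 2) →
    1 < 2 * β ^ 2 * E1 (fun z => sech (h + √(2 * β ^ 2 * q) * z) ^ 4) →
    ∃ m t : ℝ, 0 < m ∧ m ≤ 1 ∧ q < t ∧ t ≤ 1 ∧
      PF β h (two q m t) (f2 β q m t) < PF β h (one q) (f0 β q)

/-- Latala–Guerra: two positive solutions of the fixed point equation coincide -/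
def St_LG : Prop :=
  ∀ β h q1 q2 : ℝ, 0 < β → 0 < q1 → q1 < q2 →
    q1 = E1 (fun z => Real.tanh (h + √(2 * β ^ 2 * q1) * z) ^ 2) →
    q2 = E1 (fun z => Real.tanh (h + √(2 * β ^ 2 * q2) * z) ^ 2) → False

/-- a positive solution forces `2β² > 1` or `tanh h ≠ 0` -/
def St_ZERO : Prop :=
  ∀ β q : ℝ, 0 < β → 2 * β ^ 2 ≤ 1 → 0 < q →
    E1 (fun z => Real.tanh (0 + √(2 * β ^ 2 * q) * z) ^ 2) < q

/-- a minimiser among one-point measures solves the fixed point equation -/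
def St_ONEPT : Prop :=
  ∀ β h q : ℝ, 0 < β → 0 ≤ q → q ≤ 1 →
    (∀ t : ℝ, 0 ≤ t → t ≤ 1 → PF β h (one q) (f0 β q) ≤ PF β h (one t) (f0 β t)) →
    q < 1 ∧ q = E1 (fun z => Real.tanh (h + √(2 * β ^ 2 * q) * z) ^ 2)

/-- uniqueness of the solution of the Parisi equation -/
def St_UNIQ : Prop :=
  ∀ (β : ℝ) (ζ : ℝ → ℝ) (f g : ℝ → ℝ → ℝ), 0 < β → IsCdf ζ → IsParisi β ζ f → IsParisi β ζ g →
    ∀ t ∈ Icc (0 : ℝ) 1, ∀ x, f t x = g t x

/-- existence of the solution of the Parisi equation -/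
def St_EX : Prop :=
  ∀ (β : ℝ) (ζ : ℝ → ℝ), 0 < β → IsCdf ζ → ∃ f : ℝ → ℝ → ℝ, IsParisi β ζ f

/-- the one-point measure at `q'` minimises the Parisi functional over all distribution functions -/
def MinAt (β h q' : ℝ) : Prop :=
  q' ∈ Icc (0 : ℝ) 1 ∧ ∀ (ζ : ℝ → ℝ) (f : ℝ → ℝ → ℝ), IsCdf ζ → IsParisi β ζ f →
    PF β h (one q') (f0 β q') ≤ PF β h ζ f

/-- converse direction: if some one-point measure is optimal, the condition holds at the largest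
solution of the fixed point equation -/
def St_CONV : Prop :=
  ∀ β h q q' : ℝ, 0 < β → MinAt β h q' →
    IsGreatest {p : ℝ | p ∈ Icc (0 : ℝ) 1 ∧
      p = E1 (fun z => Real.tanh (β * z * √(2 * p) + h) ^ 2)} q →
    β ^ 2 * E1 (fun z => sech (β * z * √(2 * q) + h) ^ 4) ≤ 1 / 2 ∧ q' = q

/-- the largest solution of the fixed point equation exists -/
def St_GREAT : Prop :=
  ∀ β h : ℝ, 0 < β → ∃ q : ℝ, IsGreatest {p : ℝ | p ∈ Icc (0 : ℝ) 1 ∧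
      p = E1 (fun z => Real.tanh (β * z * √(2 * p) + h) ^ 2)} q

end Pool.TH198.AT
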