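import Pool.Agent.TH198.AT.Conv

/-!
# The de Almeida–Thouless line: existence of the solution of the Parisi equation, pieces
-/

set_option autoImplicit false

open MeasureTheory ProbabilityTheory Set Filter Topology

namespace Pool.TH198.AT

/-- the square, continued linearly outside `[-1,1]` -/
noncomputable def psi (u : ℝ) : ℝ := if |u| ≤ 1 then u ^ 2 else 2 * |u| - 1

/-- its derivative `2 max(-1, min(u,1))` -/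
noncomputable def psi1 (u : ℝ) : ℝ := 2 * max (-1) (min u 1)

/-- the Duhamel system for `v = f_x`, `w = f_xx`; `r = t + u²` -/
def Duh (β : ℝ) (ζ : ℝ → ℝ) (v w : ℝ → ℝ → ℝ) : Prop :=
  ContinuousOn (fun p : ℝ × ℝ => v p.1 p.2) (Icc 0 1 ×ˢ univ) ∧
  ContinuousOn (fun p : ℝ × ℝ => w p.1 p.2) (Icc 0 1 ×ˢ univ) ∧
  (∃ C : ℝ, ∀ t ∈ Icc (0 : ℝ) 1, ∀ x, |v t x| ≤ C ∧ |w t x| ≤ C) ∧
  (∀ t ∈ Icc (0 : ℝ) 1, ∀ x, HasDerivAt (v t) (w t x) x) ∧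
  (∀ t ∈ Icc (0 : ℝ) 1, ∀ x,
    v t x = E1 (fun y => Real.tanh (x + √(2 * β ^ 2 * (1 - t)) * y)) +
      √2 * β * ∫ u in (0 : ℝ)..√(1 - t), ζ (t + u ^ 2) *
        E1 (fun y => y * psi (v (t + u ^ 2) (x + √2 * β * u * y)))) ∧
  ∀ t ∈ Icc (0 : ℝ) 1, ∀ x,
    w t x = E1 (fun y => sech (x + √(2 * β ^ 2 * (1 - t)) * y) ^ 2) +
      √2 * β * ∫ u in (0 : ℝ)..√(1 - t), ζ (t + u ^ 2) *
        E1 (fun y => y * (psi1 (v (t + u ^ 2) (x + √2 * β * u * y)) *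
          w (t + u ^ 2) (x + √2 * β * u * y)))

/-- fixed point: existence for the Duhamel system -/
def St_EXA : Prop :=
  ∀ (β : ℝ) (ζ : ℝ → ℝ), 0 < β → IsCdf ζ → ∃ v w : ℝ → ℝ → ℝ, Duh β ζ v w

/-- a solution of `f_t = -β² (f_xx + ζ ψ(f_x))` in integrated form -/
def IsPsi (β : ℝ) (ζ : ℝ → ℝ) (f v w : ℝ → ℝ → ℝ) : Prop :=
  (∀ t ∈ Icc (0 : ℝ) 1, ∀ x, HasDerivAt (f t) (v t x) x ∧ HasDerivAt (v t) (w t x) x) ∧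
  ContinuousOn (fun p : ℝ × ℝ => v p.1 p.2) (Icc 0 1 ×ˢ univ) ∧
  ContinuousOn (fun p : ℝ × ℝ => w p.1 p.2) (Icc 0 1 ×ˢ univ) ∧
  (∃ C : ℝ, ∀ t ∈ Icc (0 : ℝ) 1, ∀ x, |v t x| ≤ C ∧ |w t x| ≤ C) ∧
  ∀ t ∈ Icc (0 : ℝ) 1, ∀ x, f t x =
    Real.log (Real.cosh x) + ∫ r in t..1, β ^ 2 * (w r x + ζ r * psi (v r x))

/-- from the Duhamel system to the equation -/
def St_EXC : Prop :=
  ∀ (β : ℝ) (ζ : ℝ → ℝ) (v w : ℝ → ℝ → ℝ), 0 < β → IsCdf ζ → Duh β ζ v w →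
    ∃ f : ℝ → ℝ → ℝ, IsPsi β ζ f v w

/-- the bound `|f_x| ≤ 1` -/
def St_EXD : Prop :=
  ∀ (β : ℝ) (ζ : ℝ → ℝ) (f v w : ℝ → ℝ → ℝ), 0 < β → IsCdf ζ → IsPsi β ζ f v w →
    ∀ t ∈ Icc (0 : ℝ) 1, ∀ x, |v t x| ≤ 1

theorem t_EX (hA : St_EXA) (hC : St_EXC) (hD : St_EXD) : St_EX := by
  intro β ζ hβ hζ
  obtain ⟨v, w, hvw⟩ := hA β ζ hβ hζ
  obtain ⟨f, hf⟩ := hC β ζ v w hβ hζ hvw
  have hd := hD β ζ f v w hβ hζ hf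
  obtain ⟨h1, h2, h3, h4, h5⟩ := hf
  refine ⟨f, v, w, h1, h2, h3, h4, fun t ht x => ?_⟩
  rw [h5 t ht x]
  congr 1
  refine intervalIntegral.integral_congr fun r hr => ?_
  rw [uIcc_of_le ht.2] at hr
  have : |v r x| ≤ 1 := hd r ⟨ht.1.trans hr.1, hr.2⟩ x
  simp only [psi, if_pos this]

end Pool.TH198.AT
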