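import Pool.Agent.TH198.AT.Key

set_option autoImplicit false

open MeasureTheory ProbabilityTheory Set

namespace Pool.TH198.AT

theorem E1_neg (F : ℝ → ℝ) : E1 (fun z => F (-z)) = E1 F := by
  unfold E1
  have h : (gaussianReal 0 1).map (fun x => -x) = gaussianReal 0 1 := by
    rw [gaussianReal_map_neg, neg_zero]
  have h2 : MeasurePreserving (fun x : ℝ => -x) (gaussianReal 0 1) (gaussianReal 0 1) :=
    ⟨measurable_neg, h⟩
  exact h2.integral_comp (MeasurableEquiv.neg ℝ).measurableEmbedding F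

theorem sech_neg (x : ℝ) : sech (-x) = sech x := by unfold sech; rw [Real.cosh_neg]

theorem KK_neg (w x : ℝ) : KK w (-x) = KK w x := by
  unfold KK
  rw [sech_neg, ← E1_neg (fun y => sech (-x + √w * y))]
  have : (fun z => sech (-x + √w * -z)) = fun y => sech (x + √w * y) := by
    ext y; rw [← sech_neg]; congr 1; ring
  rw [this]

theorem phiM_neg (β h q t : ℝ) : phiM β (-h) q t = phiM β h q t := by
  unfold phiM
  rw [← E1_neg (fun z => KK (max 0 (2 * β ^ 2 * (t - q))) (-h + √(2 * β ^ 2 * q) * z))]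
  congr 1
  ext z
  rw [← KK_neg]; congr 1; ring

theorem phiL_neg (β h q t : ℝ) : phiL β (-h) q t = phiL β h q t := by
  unfold phiL
  rw [← E1_neg (fun z => (E1 (fun y =>
      Real.tanh (-h + √(2 * β ^ 2 * t) * z + √(2 * β ^ 2 * (q - t)) * y))) ^ 2)]
  congr 1
  ext z
  rw [← E1_neg (fun y =>
      Real.tanh (-h + √(2 * β ^ 2 * t) * -z + √(2 * β ^ 2 * (q - t)) * y))]
  have : (fun y => Real.tanh (-h + √(2 * β ^ 2 * t) * -z + √(2 * β ^ 2 * (q - t)) * -y)) =
      fun y => -Real.tanh (h + √(2 * β ^ 2 * t) * z + √(2 * β ^ 2 * (q - t)) * y) := by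
    ext y; rw [← Real.tanh_neg]; congr 1; ring
  rw [this]
  have h2 : E1 (fun y => -Real.tanh (h + √(2 * β ^ 2 * t) * z + √(2 * β ^ 2 * (q - t)) * y)) =
      -E1 (fun y => Real.tanh (h + √(2 * β ^ 2 * t) * z + √(2 * β ^ 2 * (q - t)) * y)) := by
    unfold E1; exact integral_neg _
  rw [h2, neg_sq]

theorem DAT_neg {β h q : ℝ} (hD : DAT β h q) : DAT β (-h) q := by
  obtain ⟨h0, h1, h2⟩ := hD
  refine ⟨h0, ?_, ?_⟩
  · rw [← E1_neg (fun z => Real.tanh (β * z * √(2 * q) + -h) ^ 2)]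
    have : (fun z => Real.tanh (β * -z * √(2 * q) + -h) ^ 2) =
        fun z => Real.tanh (β * z * √(2 * q) + h) ^ 2 := by
      ext z
      have : β * -z * √(2 * q) + -h = -(β * z * √(2 * q) + h) := by ring
      rw [this, Real.tanh_neg, neg_sq]
    rw [this]; exact h1
  · rw [← E1_neg (fun z => sech (β * z * √(2 * q) + -h) ^ 4)]
    have : (fun z => sech (β * -z * √(2 * q) + -h) ^ 4) =
        fun z => sech (β * z * √(2 * q) + h) ^ 4 := by
      ext z
      have : β * -z * √(2 * q) + -h = -(β * z * √(2 * q) + h) := by ring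
      rw [this, sech_neg]
    rw [this]; exact h2

theorem opt (hC : St_CORES) {β h q : ℝ} (hβ : 0 < β) (hD : DAT β h q) :
    (∀ t : ℝ, 0 ≤ t → t < q → t < phiL β h q t) ∧
    (∀ t : ℝ, q < t → t ≤ 1 → phiM β h q t < t) := by
  rcases le_total 0 h with hh | hh
  · obtain ⟨c1, c2⟩ := hC β h q hβ hh hD
    exact ⟨fun t h0 h1 => by rw [← phiL_eq h1]; exact c1 t h0 h1,
      fun t h0 h1 => by rw [← phiM_eq h0.le]; exact c2 t h0 h1⟩
  · obtain ⟨c1, c2⟩ := hC β (-h) q hβ (by linarith) (DAT_neg hD)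
    exact ⟨fun t h0 h1 => by rw [← phiL_neg, ← phiL_eq h1]; exact c1 t h0 h1,
      fun t h0 h1 => by rw [← phiM_neg, ← phiM_eq h0.le]; exact c2 t h0 h1⟩

theorem one_cdf {q : ℝ} (_hq0 : 0 ≤ q) (hq1 : q ≤ 1) : IsCdf (one q) := by
  refine ⟨?_, ?_, ?_, ?_⟩
  · intro a _ b _ hab
    unfold one
    by_cases h : q ≤ a
    · rw [if_pos h, if_pos (h.trans hab)]
    · rw [if_neg h]; split_ifs <;> norm_num
  · intro t _
    unfold one; split_ifs <;> norm_num
  · unfold one; rw [if_pos hq1]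
  · intro t ht
    by_cases h : q ≤ t
    · have : EqOn (one q) (fun _ => 1) (Ici t) := fun u hu => by
        unfold one; rw [if_pos (h.trans hu)]
      exact (continuousWithinAt_const (b := (1 : ℝ))).congr this (this self_mem_Ici)
    · have h' : t < q := not_le.1 h
      have hev : one q =ᶠ[nhds t] fun _ => 0 := by
        filter_upwards [Iio_mem_nhds h'] with u hu
        unfold one; rw [if_neg (not_le.2 hu)]
      exact (continuousAt_const.congr hev.symm).continuousWithinAt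

theorem DAT_q1 {β h q : ℝ} (hD : DAT β h q) : q ≤ 1 := by
  rw [hD.2.1]
  refine (abs_le.1 (E1_bd _ 1 fun y => ?_)).2
  rw [abs_pow]
  exact pow_le_one₀ (abs_nonneg _) (abs_tanh_le_one _)

/-- a nonnegative interval integrable function with zero integral vanishes a.e. -/
theorem ae_zero {g : ℝ → ℝ} {a b : ℝ} (hab : a ≤ b) (hi : IntervalIntegrable g volume a b)
    (hnn : ∀ t ∈ Ioo a b, 0 ≤ g t) (h0 : ∫ t in a..b, g t = 0) :
    ∀ᵐ t ∂(volume.restrict (Ioo a b)), g t = 0 := by
  rw [intervalIntegral.integral_of_le hab, integral_Ioc_eq_integral_Ioo] at h0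
  have hi' : Integrable g (volume.restrict (Ioo a b)) :=
    (intervalIntegrable_iff_integrableOn_Ioo_of_le hab).1 hi
  have hnn' : 0 ≤ᵐ[volume.restrict (Ioo a b)] g :=
    (ae_restrict_iff' measurableSet_Ioo).2 (Filter.Eventually.of_forall hnn)
  exact (integral_eq_zero_iff_of_nonneg_ae hnn' hi').1 h0

theorem t_FULL (hPH1 : St_PH1) (hPH2 : St_PH2) (hG : St_G) (hC : St_CORES) (hF0 : St_F0) :
    St_FULL := by
  intro β h q hβ hD
  have hq0 : 0 ≤ q := hD.1
  have hq1 : q ≤ 1 := DAT_q1 hD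
  refine ⟨one_cdf hq0 hq1, hF0 β q hβ hq0 hq1, ?_⟩
  intro ζ f hζ hf
  obtain ⟨o1, o2⟩ := opt hC hβ hD
  have hk := key hPH1 hPH2 hG β h q ζ f hβ hq0 hq1 hζ hf
  have hβ2 : 0 < β ^ 2 := by positivity
  have n1 : ∀ t ∈ Ioo 0 q, 0 ≤ ζ t * (phiL β h q t - t) := by
    intro t ht
    exact mul_nonneg (hζ.2.1 t ⟨ht.1.le, ht.2.le.trans hq1⟩).1
      (by linarith [o1 t ht.1.le ht.2])
  have n2 : ∀ t ∈ Ioo q 1, 0 ≤ (1 - ζ t) * (t - phiM β h q t) := by
    intro t ht
    exact mul_nonneg (by linarith [(hζ.2.1 t ⟨hq0.trans ht.1.le, ht.2.le⟩).2])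
      (by linarith [o2 t ht.1 ht.2.le])
  have I1 : 0 ≤ ∫ t in (0 : ℝ)..q, ζ t * (phiL β h q t - t) := by
    rw [intervalIntegral.integral_of_le hq0, integral_Ioc_eq_integral_Ioo]
    exact setIntegral_nonneg measurableSet_Ioo n1
  have I2 : 0 ≤ ∫ t in q..1, (1 - ζ t) * (t - phiM β h q t) := by
    rw [intervalIntegral.integral_of_le hq1, integral_Ioc_eq_integral_Ioo]
    exact setIntegral_nonneg measurableSet_Ioo n2
  constructor
  · have : 0 ≤ β ^ 2 * ((∫ t in (0 : ℝ)..q, ζ t * (phiL β h q t - t)) +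
      ∫ t in q..1, (1 - ζ t) * (t - phiM β h q t)) := by positivity
    linarith
  · intro heq
    rw [heq, sub_self] at hk
    have hsum : (∫ t in (0 : ℝ)..q, ζ t * (phiL β h q t - t)) +
      ∫ t in q..1, (1 - ζ t) * (t - phiM β h q t) ≤ 0 := by
      by_contra hcon
      push Not at hcon
      have := mul_pos hβ2 hcon
      linarith
    have z1 : ∫ t in (0 : ℝ)..q, ζ t * (phiL β h q t - t) = 0 := by linarith
    have z2 : ∫ t in q..1, (1 - ζ t) * (t - phiM β h q t) = 0 := by linarith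
    have i1 : IntervalIntegrable (fun t => ζ t * (phiL β h q t - t)) volume 0 q :=
      cdf_int hζ le_rfl hq0 hq1 ((phiL_cont β h q).sub continuous_id)
    have i2 : IntervalIntegrable (fun t => (1 - ζ t) * (t - phiM β h q t)) volume q 1 := by
      have hc : Continuous (fun t => t - phiM β h q t) := continuous_id.sub (phiM_cont β h q)
      have := (hc.intervalIntegrable (μ := volume) q 1).sub (cdf_int hζ hq0 hq1 le_rfl hc)
      refine this.congr ?_
      intro t _
      show t - phiM β h q t - ζ t * (t - phiM β h q t) = (1 - ζ t) * (t - phiM β h q t)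
      ring
    have a1 := ae_zero hq0 i1 n1 z1
    have a2 := ae_zero hq1 i2 n2 z2
    rw [ae_restrict_iff' measurableSet_Ioo] at a1 a2
    -- existence of points in subintervals
    have ex : ∀ (P : ℝ → Prop) (a b c d : ℝ), a ≤ c → d ≤ b → c < d →
        (∀ᵐ t : ℝ, t ∈ Ioo a b → P t) → ∃ t ∈ Ioo c d, P t := by
      intro P a b c d hac hdb hcd hP
      by_contra hno
      push Not at hno
      have hsub : Ioo c d ⊆ {t | ¬ (t ∈ Ioo a b → P t)} := by
        intro t ht hcon
        exact hno t ht (hcon ⟨hac.trans_lt ht.1, ht.2.trans_le hdb⟩)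
      have hz : volume (Ioo c d) = 0 := measure_mono_null hsub (ae_iff.1 hP)
      rw [Real.volume_Ioo] at hz
      have := ENNReal.ofReal_eq_zero.1 hz
      linarith
    have lo : ∀ t, 0 ≤ t → t < q → ζ t = 0 := by
      intro t ht0 htq
      obtain ⟨u, hu, hu0⟩ := ex _ 0 q t q ht0 le_rfl htq a1
      have hu1 : 0 ≤ u := ht0.trans hu.1.le
      have hpos : 0 < phiL β h q u - u := by linarith [o1 u hu1 hu.2]
      have hz : ζ u = 0 := by
        rcases mul_eq_zero.1 hu0 with h' | h'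
        · exact h'
        · linarith
      have hm := hζ.1 ⟨ht0, (htq.le.trans hq1)⟩ ⟨hu1, hu.2.le.trans hq1⟩ hu.1.le
      have hn := (hζ.2.1 t ⟨ht0, htq.le.trans hq1⟩).1
      linarith
    have hi : ∀ t, q < t → t ≤ 1 → ζ t = 1 := by
      intro t htq ht1
      obtain ⟨u, hu, hu0⟩ := ex _ q 1 q t le_rfl ht1 htq a2
      have hu1 : u ≤ 1 := hu.2.le.trans ht1
      have hu00 : 0 ≤ u := hq0.trans hu.1.le
      have hpos : 0 < u - phiM β h q u := by linarith [o2 u hu.1 hu1]
      have hz : ζ u = 1 := by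
        rcases mul_eq_zero.1 hu0 with h' | h'
        · linarith
        · linarith
      have hm := hζ.1 ⟨hu00, hu1⟩ ⟨hq0.trans htq.le, ht1⟩ hu.2.le
      have hn := (hζ.2.1 t ⟨hq0.trans htq.le, ht1⟩).2
      linarith
    intro t ht
    rcases lt_trichotomy t q with htq | htq | htq
    · rw [lo t ht.1 htq]; unfold one; rw [if_neg (not_le.2 htq)]
    · subst htq
      unfold one
      rw [if_pos le_rfl]
      rcases eq_or_lt_of_le ht.2 with h1 | h1
      · rw [h1]; exact hζ.2.2.1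
      · have hc := hζ.2.2.2 t ⟨ht.1, h1⟩
        have hc' : Filter.Tendsto ζ (nhdsWithin t (Ioi t)) (nhds (ζ t)) :=
          hc.mono_left (nhdsWithin_mono _ Ioi_subset_Ici_self)
        have hev : ∀ᶠ u in nhdsWithin t (Ioi t), ζ u = 1 := by
          filter_upwards [Ioo_mem_nhdsGT h1] with u hu
          exact hi u hu.1 hu.2.le
        have hc'' : Filter.Tendsto ζ (nhdsWithin t (Ioi t)) (nhds 1) :=
          (tendsto_const_nhds (x := (1 : ℝ))).congr' (hev.mono fun u hu => hu.symm)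
        exact tendsto_nhds_unique hc' hc''
    · rw [hi t htq ht.2]; unfold one; rw [if_pos htq.le]

end Pool.TH198.AT
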