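import Pool.Agent.TH198.AT.Stmts2

set_option autoImplicit false

open MeasureTheory ProbabilityTheory Set

namespace Pool.TH198.AT

/-! ### continuity of Gaussian expectations of bounded continuous functions -/

theorem E1_cont {X : Type*} [TopologicalSpace X] [FirstCountableTopology X]
    (F : X → ℝ → ℝ) (hF : Continuous (fun p : X × ℝ => F p.1 p.2)) (C : ℝ)
    (hC : ∀ x y, |F x y| ≤ C) : Continuous (fun x => E1 (F x)) := by
  unfold E1
  refine continuous_of_dominated (bound := fun _ => C) ?_ ?_ ?_ ?_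
  · intro x
    have : Continuous (F x) := hF.comp (Continuous.prodMk_right x)
    exact this.aestronglyMeasurable
  · intro x
    exact Filter.Eventually.of_forall fun y => by rw [Real.norm_eq_abs]; exact hC x y
  · exact integrable_const _
  · exact Filter.Eventually.of_forall fun y => hF.comp (Continuous.prodMk_left y)

theorem E1_bd (F : ℝ → ℝ) (C : ℝ) (hC : ∀ y, |F y| ≤ C) : |E1 F| ≤ C := by
  unfold E1
  have := norm_integral_le_of_norm_le_const (μ := gaussianReal 0 1) (f := F) (C := C)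
    (Filter.Eventually.of_forall fun y => by rw [Real.norm_eq_abs]; exact hC y)
  simpa using this

theorem E1_const (c : ℝ) : E1 (fun _ => c) = c := by
  unfold E1; simp

theorem sech_pos (x : ℝ) : 0 < sech x := by unfold sech; exact inv_pos.2 (Real.cosh_pos x)

theorem sech_le_one (x : ℝ) : sech x ≤ 1 := by
  unfold sech; exact inv_le_one_of_one_le₀ (Real.one_le_cosh x)

theorem sech_cont : Continuous sech := by
  unfold sech
  exact Real.continuous_cosh.inv₀ fun x => (Real.cosh_pos x).ne'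

theorem tanh_cont : Continuous Real.tanh := by
  have : Real.tanh = fun x => Real.sinh x / Real.cosh x := by
    ext x; exact Real.tanh_eq_sinh_div_cosh x
  rw [this]
  exact Real.continuous_sinh.div Real.continuous_cosh fun x => (Real.cosh_pos x).ne'

theorem abs_tanh_le_one (x : ℝ) : |Real.tanh x| ≤ 1 := by
  rw [Real.tanh_eq_sinh_div_cosh, abs_div, abs_of_pos (Real.cosh_pos x), div_le_one (Real.cosh_pos x)]
  rw [abs_le]
  constructor
  · have := Real.exp_pos x
    rw [Real.sinh_eq, Real.cosh_eq]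
    have h2 := Real.exp_pos (-x)
    linarith
  · rw [Real.sinh_eq, Real.cosh_eq]
    have h2 := Real.exp_pos (-x)
    linarith

theorem sech_abs (x : ℝ) : |sech x| ≤ 1 := by
  rw [abs_of_pos (sech_pos x)]; exact sech_le_one x

theorem Esech_cont : Continuous (fun p : ℝ × ℝ => E1 (fun y => sech (p.2 + √p.1 * y))) := by
  refine E1_cont (fun (p : ℝ × ℝ) y => sech (p.2 + √p.1 * y)) ?_ 1 fun _ _ => sech_abs _
  exact sech_cont.comp (by fun_prop)

theorem KK_cont : Continuous (fun p : ℝ × ℝ => KK p.1 p.2) := by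
  unfold KK
  refine continuous_const.sub (((Real.continuous_exp.comp (by fun_prop)).mul
    (sech_cont.comp continuous_snd)).mul Esech_cont)

theorem KK_bd {w x : ℝ} (hw : 0 ≤ w) : |KK w x| ≤ 1 := by
  unfold KK
  have h1 : 0 ≤ E1 (fun y => sech (x + √w * y)) := by
    unfold E1; exact integral_nonneg fun y => (sech_pos _).le
  have h2 : E1 (fun y => sech (x + √w * y)) ≤ 1 :=
    (abs_le.1 (E1_bd _ 1 fun _ => sech_abs _)).2
  have h3 : 0 < Real.exp (-w / 2) := Real.exp_pos _
  have h4 : Real.exp (-w / 2) ≤ 1 := Real.exp_le_one_iff.2 (by linarith)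
  have h5 := sech_pos x
  have h6 := sech_le_one x
  have h7 : 0 ≤ Real.exp (-w / 2) * sech x * E1 (fun y => sech (x + √w * y)) := by positivity
  have h8 : Real.exp (-w / 2) * sech x * E1 (fun y => sech (x + √w * y)) ≤ 1 := by
    have : Real.exp (-w / 2) * sech x ≤ 1 := mul_le_one₀ h4 h5.le h6
    exact mul_le_one₀ this h1 h2
  rw [abs_le]; constructor <;> linarith

theorem phi_lt {β h q t : ℝ} (ht : t < q) : phi β h q t =
    E1 (fun z => (E1 (fun y =>
      Real.tanh (h + √(2 * β ^ 2 * t) * z + √(2 * β ^ 2 * (q - t)) * y))) ^ 2) := by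
  unfold phi; rw [if_pos ht]

theorem phi_ge {β h q t : ℝ} (ht : q ≤ t) : phi β h q t =
    E1 (fun z => KK (2 * β ^ 2 * (t - q)) (h + √(2 * β ^ 2 * q) * z)) := by
  unfold phi V
  rw [if_neg (not_lt.2 ht)]
  unfold KK
  simp only [pow_one]
  set v := 2 * β ^ 2 * (t - q)
  set s := 2 * β ^ 2 * q
  have hc : Continuous fun z => sech (h + √s * z) * E1 (fun y => sech (h + √s * z + √v * y)) := by
    refine (sech_cont.comp (by fun_prop)).mul ?_
    have := Esech_cont.comp (f := fun z : ℝ => (v, h + √s * z)) (by fun_prop)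
    exact this
  have hint : Integrable (fun z => sech (h + √s * z) *
      E1 (fun y => sech (h + √s * z + √v * y))) (gaussianReal 0 1) := by
    refine Integrable.of_bound (C := 1) hc.aestronglyMeasurable
      (Filter.Eventually.of_forall fun z => ?_)
    rw [Real.norm_eq_abs, abs_mul]
    exact mul_le_one₀ (sech_abs _) (abs_nonneg _) (E1_bd _ 1 fun _ => sech_abs _)
  have : (fun z => 1 - Real.exp (-v / 2) * sech (h + √s * z) *
      E1 (fun y => sech (h + √s * z + √v * y))) =
      fun z => 1 - Real.exp (-v / 2) * (sech (h + √s * z) *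
      E1 (fun y => sech (h + √s * z + √v * y))) := by
    ext z; ring
  rw [this]
  unfold E1 at hint ⊢
  rw [integral_sub (integrable_const _) (hint.const_mul _), integral_const_mul]
  simp

/-- `φ` on `[0,q]`, continuous version -/
noncomputable def phiL (β h q t : ℝ) : ℝ :=
  E1 (fun z => (E1 (fun y =>
      Real.tanh (h + √(2 * β ^ 2 * t) * z + √(2 * β ^ 2 * (q - t)) * y))) ^ 2)

/-- `φ` on `[q,1]`, continuous version -/
noncomputable def phiR (β h q t : ℝ) : ℝ :=
  E1 (fun z => KK (2 * β ^ 2 * (t - q)) (h + √(2 * β ^ 2 * q) * z))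

theorem phiL_cont (β h q : ℝ) : Continuous (phiL β h q) := by
  unfold phiL
  refine E1_cont (fun t z => (E1 (fun y =>
      Real.tanh (h + √(2 * β ^ 2 * t) * z + √(2 * β ^ 2 * (q - t)) * y))) ^ 2) ?_ 1 ?_
  · refine Continuous.pow ?_ 2
    refine E1_cont (fun (p : ℝ × ℝ) y =>
      Real.tanh (h + √(2 * β ^ 2 * p.1) * p.2 + √(2 * β ^ 2 * (q - p.1)) * y)) ?_ 1
      fun _ _ => abs_tanh_le_one _
    exact tanh_cont.comp (by fun_prop)
  · intro t z
    have := E1_bd (fun y =>
      Real.tanh (h + √(2 * β ^ 2 * t) * z + √(2 * β ^ 2 * (q - t)) * y)) 1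
      fun _ => abs_tanh_le_one _
    rw [abs_pow]
    exact pow_le_one₀ (abs_nonneg _) this

/-- `φ` on `[q,1]`, globally bounded version -/
noncomputable def phiM (β h q t : ℝ) : ℝ :=
  E1 (fun z => KK (max 0 (2 * β ^ 2 * (t - q))) (h + √(2 * β ^ 2 * q) * z))

theorem phiM_cont (β h q : ℝ) : Continuous (phiM β h q) := by
  unfold phiM
  refine E1_cont (fun t z => KK (max 0 (2 * β ^ 2 * (t - q))) (h + √(2 * β ^ 2 * q) * z)) ?_ 1 ?_
  · exact KK_cont.comp (f := fun p : ℝ × ℝ => (max 0 (2 * β ^ 2 * (p.1 - q)),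
      h + √(2 * β ^ 2 * q) * p.2)) (by fun_prop)
  · intro t z
    exact KK_bd (le_max_left _ _)

theorem phiM_eq {β h q t : ℝ} (ht : q ≤ t) : phi β h q t = phiM β h q t := by
  rw [phi_ge ht]
  unfold phiM
  rw [max_eq_right (by have : 0 ≤ t - q := by linarith
                       positivity)]

theorem phiL_eq {β h q t : ℝ} (ht : t < q) : phi β h q t = phiL β h q t := by
  rw [phi_lt ht]; rfl

/-- integrability of (bounded monotone) × (continuous) -/
theorem cdf_int {ζ : ℝ → ℝ} (hζ : IsCdf ζ) {a b : ℝ} (ha : 0 ≤ a) (hab : a ≤ b) (hb : b ≤ 1)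
    {g : ℝ → ℝ} (hg : Continuous g) : IntervalIntegrable (fun t => ζ t * g t) volume a b := by
  have hsub : Icc a b ⊆ Icc (0 : ℝ) 1 := Icc_subset_Icc ha hb
  have hm : MonotoneOn ζ (Icc a b) := hζ.1.mono hsub
  have h1 : IntegrableOn ζ (Icc a b) := hm.integrableOn_isCompact isCompact_Icc
  have h2 : IntegrableOn (fun t => ζ t * g t) (Icc a b) := by
    have := h1.mul_continuousOn (g' := g) hg.continuousOn isCompact_Icc
    exact this
  rw [intervalIntegrable_iff_integrableOn_Icc_of_le hab]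
  exact h2

theorem cdf_int' {ζ : ℝ → ℝ} (hζ : IsCdf ζ) {a b : ℝ} (ha : 0 ≤ a) (hab : a ≤ b) (hb : b ≤ 1) :
    IntervalIntegrable ζ volume a b := by
  have := cdf_int hζ ha hab hb (g := fun _ => 1) continuous_const
  simpa using this

/-- Fubini for phase 1 -/
theorem fub {ζ : ℝ → ℝ} (hζ : IsCdf ζ) {β h q : ℝ} (hq0 : 0 ≤ q) (hq1 : q ≤ 1) :
    E1 (fun y => ∫ r in q..1, (ζ r - 1) * KK (2 * β ^ 2 * (r - q)) (h + √(2 * β ^ 2 * q) * y)) =
      ∫ r in q..1, (ζ r - 1) * phiM β h q r := by
  have hcong : ∀ x : ℝ, (∫ r in q..1, (ζ r - 1) * KK (2 * β ^ 2 * (r - q)) x) =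
      ∫ r in Ioc q 1, (ζ r - 1) * KK (max 0 (2 * β ^ 2 * (r - q))) x := by
    intro x
    rw [intervalIntegral.integral_of_le hq1]
    refine setIntegral_congr_fun measurableSet_Ioc fun r hr => ?_
    have h0 : 0 ≤ 2 * β ^ 2 * (r - q) := by
      have : 0 ≤ r - q := by linarith [hr.1]
      positivity
    show (ζ r - 1) * KK (2 * β ^ 2 * (r - q)) x =
      (ζ r - 1) * KK (max 0 (2 * β ^ 2 * (r - q))) x
    rw [max_eq_right h0]
  simp only [hcong]
  rw [intervalIntegral.integral_of_le hq1]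
  unfold phiM E1
  have hζi : Integrable (fun r => ζ r - 1) (volume.restrict (Ioc q 1)) := by
    have := (cdf_int' hζ hq0 hq1 le_rfl).1
    exact this.sub (integrable_const _)
  rw [integral_integral_swap]
  · refine integral_congr_ae (Filter.Eventually.of_forall fun r => ?_)
    exact integral_const_mul _ _
  · have h1 : Integrable (fun p : ℝ × ℝ => (ζ p.2 - 1) * (1 : ℝ))
        ((gaussianReal 0 1).prod (volume.restrict (Ioc q 1))) := by
      have := Integrable.mul_prod (μ := gaussianReal 0 1) (ν := volume.restrict (Ioc q 1))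
        (f := fun _ : ℝ => (1 : ℝ)) (g := fun r => ζ r - 1) (integrable_const _) hζi
      simpa using this
    have h2 : Continuous (fun p : ℝ × ℝ =>
        KK (max 0 (2 * β ^ 2 * (p.2 - q))) (h + √(2 * β ^ 2 * q) * p.1)) :=
      KK_cont.comp (f := fun p : ℝ × ℝ => (max 0 (2 * β ^ 2 * (p.2 - q)),
        h + √(2 * β ^ 2 * q) * p.1)) (by fun_prop)
    have h3 : Integrable (fun p : ℝ × ℝ => (ζ p.2 - 1))
        ((gaussianReal 0 1).prod (volume.restrict (Ioc q 1))) := by simpa using h1
    have := h3.mul_bdd (c := 1) (g := fun p : ℝ × ℝ =>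
        KK (max 0 (2 * β ^ 2 * (p.2 - q))) (h + √(2 * β ^ 2 * q) * p.1))
        h2.aestronglyMeasurable (Filter.Eventually.of_forall fun p => by
          rw [Real.norm_eq_abs]; exact KK_bd (le_max_left _ _))
    exact this

theorem lc_int (h σ : ℝ) : Integrable (fun y => Real.log (Real.cosh (h + σ * y)))
    (gaussianReal 0 1) := by
  have hc : Continuous (fun y => Real.log (Real.cosh (h + σ * y))) := by
    refine Continuous.log ?_ fun y => (Real.cosh_pos _).ne'
    exact Real.continuous_cosh.comp (by fun_prop)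
  have hb : ∀ x : ℝ, |Real.log (Real.cosh x)| ≤ |x| := by
    intro x
    have h1 : 0 ≤ Real.log (Real.cosh x) := Real.log_nonneg (Real.one_le_cosh x)
    rw [abs_of_nonneg h1]
    have h2 : Real.cosh x ≤ Real.exp |x| := by
      rw [← Real.cosh_abs, Real.cosh_eq]
      have : Real.exp (-|x|) ≤ Real.exp |x| := Real.exp_le_exp.2 (by linarith [abs_nonneg x])
      linarith
    calc Real.log (Real.cosh x) ≤ Real.log (Real.exp |x|) :=
          Real.log_le_log (Real.cosh_pos x) h2
      _ = |x| := Real.log_exp _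
  have hi : Integrable (fun y : ℝ => |h| + |σ| * |y|) (gaussianReal 0 1) := by
    refine (integrable_const _).add (Integrable.const_mul ?_ _)
    have : MemLp (fun y : ℝ => y) 1 (gaussianReal 0 1) := memLp_id_gaussianReal 1
    exact (memLp_one_iff_integrable.1 this).abs
  refine hi.mono' hc.aestronglyMeasurable (Filter.Eventually.of_forall fun y => ?_)
  rw [Real.norm_eq_abs]
  refine (hb _).trans ((abs_add_le _ _).trans ?_)
  rw [abs_mul]

/-- THE KEY INEQUALITY -/
theorem key (hPH1 : St_PH1) (hPH2 : St_PH2) (hG : St_G) (β h q : ℝ) (ζ : ℝ → ℝ)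
    (f : ℝ → ℝ → ℝ) (hβ : 0 < β) (hq0 : 0 ≤ q) (hq1 : q ≤ 1) (hζ : IsCdf ζ)
    (hf : IsParisi β ζ f) :
    β ^ 2 * ((∫ t in (0 : ℝ)..q, ζ t * (phiL β h q t - t)) +
      ∫ t in q..1, (1 - ζ t) * (t - phiM β h q t)) ≤
      PF β h ζ f - PF β h (one q) (f0 β q) := by
  obtain ⟨G1, G2, hGc⟩ := hG β q ζ hβ hq0 hq1 hζ
  have h1 := hPH1 β q ζ f hβ hq0 hq1 hζ hf
  have h2 := hPH2 β q ζ f _ G1 G2 hβ hq0 hq1 hζ hf hGc h1 h
  -- expectation of `G`
  have hR : Integrable (fun y => ∫ r in q..1, (ζ r - 1) *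
      KK (2 * β ^ 2 * (r - q)) (h + √(2 * β ^ 2 * q) * y)) (gaussianReal 0 1) := by
    have hcont : Continuous fun x => Real.log (Real.cosh x) + β ^ 2 * (1 - q) +
        β ^ 2 * (∫ r in q..1, (ζ r - 1) * KK (2 * β ^ 2 * (r - q)) x) :=
      continuous_iff_continuousAt.2 fun x => (hGc.1 x).continuousAt
    have hlc : Continuous fun x => Real.log (Real.cosh x) :=
      Real.continuous_cosh.log fun y => (Real.cosh_pos _).ne'
    have hcI : Continuous fun x => ∫ r in q..1, (ζ r - 1) * KK (2 * β ^ 2 * (r - q)) x := by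
      have : (fun x => ∫ r in q..1, (ζ r - 1) * KK (2 * β ^ 2 * (r - q)) x) =
        fun x => ((Real.log (Real.cosh x) + β ^ 2 * (1 - q) +
        β ^ 2 * (∫ r in q..1, (ζ r - 1) * KK (2 * β ^ 2 * (r - q)) x)) -
          Real.log (Real.cosh x) - β ^ 2 * (1 - q)) / β ^ 2 := by
        ext x
        field_simp
        ring
      rw [this]
      exact ((hcont.sub hlc).sub continuous_const).div_const _
    refine Integrable.of_bound (C := 1)
      (hcI.comp (g := fun x => ∫ r in q..1, (ζ r - 1) * KK (2 * β ^ 2 * (r - q)) x)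
        (f := fun y => h + √(2 * β ^ 2 * q) * y) (by fun_prop)).aestronglyMeasurable
      (Filter.Eventually.of_forall fun y => ?_)
    have := intervalIntegral.norm_integral_le_of_norm_le_const (a := q) (b := 1) (C := 1)
      (f := fun r => (ζ r - 1) * KK (2 * β ^ 2 * (r - q)) (h + √(2 * β ^ 2 * q) * y)) ?_
    · refine this.trans ?_
      rw [abs_of_nonneg (by linarith)]; linarith
    · intro r hr
      rw [uIoc_of_le hq1] at hr
      have hr' : r ∈ Icc (0 : ℝ) 1 := ⟨by linarith [hr.1], hr.2⟩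
      have hz := hζ.2.1 r hr'
      rw [Real.norm_eq_abs, abs_mul]
      have hr0 : 0 ≤ r - q := by linarith [hr.1]
      exact mul_le_one₀ (by rw [abs_le]; constructor <;> linarith [hz.1, hz.2]) (abs_nonneg _)
        (KK_bd (by positivity))
  have hEG : E1 (fun y => Real.log (Real.cosh (h + √(2 * β ^ 2 * q) * y)) + β ^ 2 * (1 - q) +
        β ^ 2 * (∫ r in q..1, (ζ r - 1) *
          KK (2 * β ^ 2 * (r - q)) (h + √(2 * β ^ 2 * q) * y))) =
      E1 (fun y => Real.log (Real.cosh (h + √(2 * β ^ 2 * q) * y))) + β ^ 2 * (1 - q) +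
        β ^ 2 * ∫ r in q..1, (ζ r - 1) * phiM β h q r := by
    rw [← fub hζ hq0 hq1]
    unfold E1
    have a1 : ∫ y, (Real.log (Real.cosh (h + √(2 * β ^ 2 * q) * y)) + β ^ 2 * (1 - q) +
        β ^ 2 * (∫ r in q..1, (ζ r - 1) *
          KK (2 * β ^ 2 * (r - q)) (h + √(2 * β ^ 2 * q) * y))) ∂(gaussianReal 0 1) =
        (∫ y, (Real.log (Real.cosh (h + √(2 * β ^ 2 * q) * y)) + β ^ 2 * (1 - q))
          ∂(gaussianReal 0 1)) + ∫ y, β ^ 2 * (∫ r in q..1, (ζ r - 1) *
          KK (2 * β ^ 2 * (r - q)) (h + √(2 * β ^ 2 * q) * y)) ∂(gaussianReal 0 1) :=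
      integral_add ((lc_int _ _).add (integrable_const _)) (hR.const_mul _)
    have a2 : ∫ y, (Real.log (Real.cosh (h + √(2 * β ^ 2 * q) * y)) + β ^ 2 * (1 - q))
          ∂(gaussianReal 0 1) = (∫ y, Real.log (Real.cosh (h + √(2 * β ^ 2 * q) * y))
          ∂(gaussianReal 0 1)) + ∫ _y, β ^ 2 * (1 - q) ∂(gaussianReal 0 1) :=
      integral_add (lc_int _ _) (integrable_const _)
    have a3 : ∫ y, β ^ 2 * (∫ r in q..1, (ζ r - 1) *
          KK (2 * β ^ 2 * (r - q)) (h + √(2 * β ^ 2 * q) * y)) ∂(gaussianReal 0 1) =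
        β ^ 2 * ∫ y, (∫ r in q..1, (ζ r - 1) *
          KK (2 * β ^ 2 * (r - q)) (h + √(2 * β ^ 2 * q) * y)) ∂(gaussianReal 0 1) :=
      integral_const_mul _ _
    rw [a1, a2, a3]
    simp
  rw [hEG] at h2
  -- value at the one-point measure
  have hf0 : f0 β q 0 h = E1 (fun y => Real.log (Real.cosh (h + √(2 * β ^ 2 * q) * y))) +
      β ^ 2 * (1 - q) := by
    unfold f0
    by_cases hq : q ≤ 0
    · have hq' : q = 0 := le_antisymm hq hq0
      subst hq'
      rw [if_pos le_rfl]
      simp only [mul_zero, Real.sqrt_zero, zero_mul, add_zero, E1_const]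
    · rw [if_neg hq, sub_zero]
  have hone : ∫ t in (0 : ℝ)..1, one q t * t = ∫ t in q..1, t := by
    have hi1 : IntervalIntegrable (fun t => one q t * t) volume 0 q := by
      refine (intervalIntegrable_iff_integrableOn_Ioo_of_le hq0).2 ?_
      have hz : IntegrableOn (fun _ : ℝ => (0 : ℝ)) (Ioo 0 q) volume := integrableOn_zero
      refine hz.congr_fun (fun t ht => ?_) measurableSet_Ioo
      unfold one; rw [if_neg (not_le.2 ht.2)]; simp
    have hi2 : IntervalIntegrable (fun t => one q t * t) volume q 1 := by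
      have : IntervalIntegrable (fun t : ℝ => t) volume q 1 := by
        exact intervalIntegral.intervalIntegrable_id
      refine this.congr ?_
      intro t ht
      rw [uIoc_of_le hq1] at ht
      unfold one; simp only; rw [if_pos ht.1.le, one_mul]
    rw [← intervalIntegral.integral_add_adjacent_intervals hi1 hi2]
    have e1 : ∫ t in (0 : ℝ)..q, one q t * t = 0 := by
      have : ∫ t in (0 : ℝ)..q, one q t * t = ∫ t in (0 : ℝ)..q, (0 : ℝ) := by
        refine intervalIntegral.integral_congr_ae ?_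
        have hne : ∀ᵐ t : ℝ, t ≠ q := by
          rw [ae_iff]; simp
        filter_upwards [hne] with t htq ht
        rw [uIoc_of_le hq0] at ht
        unfold one; rw [if_neg (not_le.2 (lt_of_le_of_ne ht.2 htq)), zero_mul]
      rw [this]; simp
    have e2 : ∫ t in q..1, one q t * t = ∫ t in q..1, t := by
      refine intervalIntegral.integral_congr_ae (Filter.Eventually.of_forall fun t ht => ?_)
      rw [uIoc_of_le hq1] at ht
      unfold one; rw [if_pos ht.1.le, one_mul]
    rw [e1, e2, zero_add]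
  -- splitting the integrals
  have hL := phiL_cont β h q
  have hM := phiM_cont β h q
  have iL1 : IntervalIntegrable (fun t => ζ t * phiL β h q t) volume 0 q :=
    cdf_int hζ le_rfl hq0 hq1 hL
  have iL2 : IntervalIntegrable (fun t => ζ t * t) volume 0 q :=
    cdf_int hζ le_rfl hq0 hq1 continuous_id
  have iR2 : IntervalIntegrable (fun t => ζ t * t) volume q 1 :=
    cdf_int hζ hq0 hq1 le_rfl continuous_id
  have iR1 : IntervalIntegrable (fun t => ζ t * phiM β h q t) volume q 1 :=
    cdf_int hζ hq0 hq1 le_rfl hM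
  have s1 : ∫ t in (0 : ℝ)..q, ζ t * (phiL β h q t - t) =
      (∫ t in (0 : ℝ)..q, ζ t * phiL β h q t) - ∫ t in (0 : ℝ)..q, ζ t * t := by
    rw [← intervalIntegral.integral_sub iL1 iL2]
    refine intervalIntegral.integral_congr fun t _ => ?_
    ring
  have s2 : ∫ t in q..1, (1 - ζ t) * (t - phiM β h q t) =
      (∫ t in q..1, (ζ t - 1) * phiM β h q t) + (∫ t in q..1, t) - ∫ t in q..1, ζ t * t := by
    have j1 : IntervalIntegrable (fun t => (ζ t - 1) * phiM β h q t) volume q 1 := by
      have := iR1.sub (hM.intervalIntegrable (μ := volume) q 1)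
      refine this.congr ?_
      intro t _
      show ζ t * phiM β h q t - phiM β h q t = (ζ t - 1) * phiM β h q t
      ring
    have j2 : IntervalIntegrable (fun t : ℝ => t) volume q 1 :=
      intervalIntegral.intervalIntegrable_id
    rw [← intervalIntegral.integral_add j1 j2, ← intervalIntegral.integral_sub (j1.add j2) iR2]
    refine intervalIntegral.integral_congr fun t _ => ?_
    show (1 - ζ t) * (t - phiM β h q t) = (ζ t - 1) * phiM β h q t + t - ζ t * t
    ring
  have s3 : ∫ t in (0 : ℝ)..1, ζ t * t =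
      (∫ t in (0 : ℝ)..q, ζ t * t) + ∫ t in q..1, ζ t * t :=
    (intervalIntegral.integral_add_adjacent_intervals iL2 iR2).symm
  unfold PF
  rw [hf0, hone, s1, s2, s3]
  have h2' : E1 (fun y => Real.log (Real.cosh (h + √(2 * β ^ 2 * q) * y))) + β ^ 2 * (1 - q) +
      β ^ 2 * (∫ r in q..1, (ζ r - 1) * phiM β h q r) +
      β ^ 2 * (∫ r in (0 : ℝ)..q, ζ r * phiL β h q r) ≤ f 0 h := h2
  nlinarith [h2']

end Pool.TH198.AT
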