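import Pool.Agent.TH198.AT.Stmts

/-!
# The de Almeida–Thouless line: strict versions (uniqueness of the minimiser)
-/

set_option autoImplicit false

open MeasureTheory ProbabilityTheory Set

namespace Pool.TH198.AT

/-- strict Gaussian Poincaré inequality for `tanh` -/
def St_POINS : Prop :=
  ∀ x σ : ℝ, 0 < σ →
    E1 (fun y => Real.tanh (x + σ * y) ^ 2) - (E1 (fun y => Real.tanh (x + σ * y))) ^ 2 <
      σ ^ 2 * E1 (fun y => sech (x + σ * y) ^ 4)

/-- strict form of THE CLAIM -/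
def St_CLAIMS : Prop :=
  ∀ s h v : ℝ, 0 < s → 0 ≤ h → h ^ 2 ≤ 2 * s ^ 2 + s → 0 < v →
    0 < E1 (fun z => sech (h + √s * z) * E1 (fun y => kk (h + √s * z + √v * y)))

/-- strict first order optimality -/
def St_CORES : Prop :=
  ∀ β h q : ℝ, 0 < β → 0 ≤ h → DAT β h q →
    (∀ t : ℝ, 0 ≤ t → t < q → t < phi β h q t) ∧ (∀ t : ℝ, q < t → t ≤ 1 → phi β h q t < t)

/-- THE THEOREM with uniqueness: in the de Almeida–Thouless region the one-point measure at `q`
is the unique minimiser of the Parisi functional. -/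
def St_FULL : Prop :=
  ∀ β h q : ℝ, 0 < β → DAT β h q →
    IsCdf (one q) ∧ IsParisi β (one q) (f0 β q) ∧
    ∀ (ζ : ℝ → ℝ) (f : ℝ → ℝ → ℝ), IsCdf ζ → IsParisi β ζ f →
      PF β h (one q) (f0 β q) ≤ PF β h ζ f ∧
      (PF β h ζ f = PF β h (one q) (f0 β q) → ∀ t ∈ Icc (0 : ℝ) 1, ζ t = one q t)

end Pool.TH198.AT
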